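import Pool.Agent.H91.RF.TargetsR
import Pool.Agent.H91.RF.TargetsA

/-!
# Module ALLC of board rf_modules (MP_609556_an): conclusion at every speed
-/

set_option autoImplicit false

open MeasureTheory Set Filter Topology Metric
open Pool.Agent.H91.RD Pool.Agent.H91.RF

namespace Pool.Agent.H69.RF

theorem ter_mono {f : ℝ → ℝ} {J : ℕ} {b c : ℕ → ℝ} {y : ℕ → ℝ → ℝ} (hT : Ter f J b c y) {i : ℕ} :
    ∀ {k : ℕ}, i ≤ k → k ≤ J → b i ≤ b k := by
  intro k hik
  induction k, hik using Nat.le_induction with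
  | base => intro _; exact le_rfl
  | succ k hik ih =>
    intro hk
    exact (ih (by omega)).trans (hT.lt k (by omega)).le

/-- the exponential decay or the wake ahead of the speed `c j` -/
theorem ahead (hMAC : T_MAC) (hFRM : T_FRM) (hAHD0 : T_AHD0) (hAHDN : T_AHDN) (hSTAT : T_STAT)
    {N : ℕ} {f : ℝ → ℝ} {K : ℝ} {U : Set (E N)} {u : ℝ → E N → ℝ} {J : ℕ} {b c : ℕ → ℝ}
    {y : ℕ → ℝ → ℝ} (hS : Stg f K U u) (hT : Ter f J b c y) {i j k : ℕ} (hij : i ≤ j)
    (hjJ : j < J) (hci : c i = c j)
    (hi : i = 0 ∨ ∃ i', i = i' + 1 ∧ c j < c i') (hMac : Mac U u (c j) (b i) (b (k + 1)))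
    (ih : ∀ m < j, KIn U u (c m) ∧ RZero U u (c m)) :
    AheadD U u (c j) ∨ AheadW U u (c j) := by
  rcases hi with rfl | ⟨i', rfl, hc⟩
  · left
    have := hAHD0 N f K U u J b c y hS hT
    rwa [hci] at this
  · have hi'J : i' < J := by omega
    have hzer : f (b (i' + 1)) = 0 := hT.zer (i' + 1) (by omega)
    rcases (hT.top i' hi'J).lt_or_eq with hlt | heq
    · left
      have hpos : 0 < b (i' + 1) := by
        have h1 := ter_mono hT (Nat.zero_le i') hi'J.le
        rw [hT.b0] at h1
        exact h1.trans_lt (hT.lt i' hi'J)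
      exact hAHDN N f K (c j) (b (i' + 1)) (b (k + 1)) U u hS hMac hpos hzer hlt
    · right
      obtain ⟨i2, k2, hi2, hk2, hk2J, hcl2, _, hMac2⟩ := hMAC N f K U u J b c y hS hT i' hi'J
      have hk2' : k2 = i' := by
        by_contra hne
        have h1 := hcl2 (i' + 1) (by omega) (by omega)
        rw [hci] at h1
        linarith
      subst hk2'
      obtain ⟨C0', C9', η0', hFrm'⟩ := hFRM N f K (c k2) (b i2) (b (k2 + 1)) U u hS hMac2
      obtain ⟨h1, h2⟩ := ih k2 (by omega)
      exact hSTAT N f K (c k2) (c j) (b i2) (b (k2 + 1)) (b (k + 1)) C0' C9' η0' U u hS hc hzer heq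
        hMac2 hMac hFrm' h1 h2

/-- **ALLC.** -/
theorem pf_ALLC (hMAC : T_MAC) (hFRM : T_FRM) (hAHD0 : T_AHD0) (hAHDN : T_AHDN) (hABD : T_ABD)
    (hKIN : T_KIN) (hRCR : T_RCR) (hSTAT : T_STAT) (hSWN : T_SWN) (hVSL : T_VSL) (hFT : T_FT)
    (hWID : T_WID) : T_ALLC := by
  intro N f K U u J b c y hS hT
  have main : ∀ j, j < J → KIn U u (c j) ∧ RZero U u (c j) := by
    intro j
    induction j using Nat.strong_induction_on with
    | _ j ih =>
      intro hjJ
      obtain ⟨i, k, hij, hjk, hkJ, hcl, hi, hMac⟩ := hMAC N f K U u J b c y hS hT j hjJ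
      obtain ⟨C0, C9, η0, hFrm⟩ := hFRM N f K (c j) (b i) (b (k + 1)) U u hS hMac
      have hci : c i = c j := hcl i le_rfl (hij.trans hjk)
      have htop : fp f (b (k + 1)) ≤ 0 := hT.top k hkJ
      have hkap : 4 * fp f (b i) ≤ c j ^ 2 := by
        have := hT.kap i (by omega)
        rwa [hci] at this
      have hA := ahead hMAC hFRM hAHD0 hAHDN hSTAT hS hT hij hjJ hci hi hMac
        (fun m hm => ih m hm (by omega))
      have hABd := hABD N f K (c j) (b i) (b (k + 1)) C0 C9 η0 U u hS hMac hFrm hkap htop hA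
      have hKIn := hKIN N f K (c j) (b i) (b (k + 1)) C0 C9 η0 U u hS hMac hFrm hkap htop hA hABd
      have hSat : SatW f U u (c j) := by
        refine hSWN N f K U u J b c y i k (c j) C0 C9 η0 hS hT (hij.trans hjk) hkJ hcl hMac hFrm
          hKIn ?_
        rcases hkap.lt_or_eq with hlt | heq
        · exact Or.inl hlt
        · right
          have hi0 : i = 0 := by
            rcases hi with h | ⟨i', rfl, _⟩
            · exact h
            · exfalso
              have h1 := hT.top i' (by omega)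
              have h2 : 0 < c j ^ 2 := pow_pos hMac.cpos 2
              linarith
          subst hi0
          rw [hT.b0] at hMac
          have heq0 : 4 * fp f 0 = c j ^ 2 := by rw [← hT.b0]; exact heq
          have heq1 : 4 * fp f 0 = c 0 ^ 2 := by rw [hci]; exact heq0
          have hAD : AheadD U u (c j) := by
            have := hAHD0 N f K U u J b c y hS hT
            rwa [hci] at this
          have hVS : VSl U u (c j) := by
            have := hVSL N f K U u J b c y C0 C9 η0 hS hT heq1 (by rw [hci]; exact hFrm)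
            rwa [hci] at this
          have hVac := hFT N f K C0 C9 η0 (c j) (b (k + 1)) U u hS hMac heq0 hFrm hAD hKIn hVS
          refine ⟨heq, rfl, hVac, ?_⟩
          have := hWID N f K U u J b c y (b (k + 1)) C0 C9 η0 hS hT heq1 (by rw [hci]; exact hMac)
            (ter_mono hT (by omega) (by omega)) (by rw [hci]; exact hFrm) (by rw [hci]; exact hVac)
          rwa [hci] at this
      exact ⟨hKIn, hRCR N f K (c j) (b i) (b (k + 1)) C0 C9 η0 U u hS hMac hFrm hA hSat⟩
  exact fun j hj => (main j hj).2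

end Pool.Agent.H69.RF
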